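import Pool.Agent.Lib.MP_c7af3c_ag.GEN.Interfaces

/-!
# Module DERB (helper59): derivations are bounded at every place of a function field
-/

set_option autoImplicit false

namespace Pool.Agent.Gen.H59

open WithZero IsDedekindDomain

/-- a derivation with `g δ(B) ⊆ B` is bounded by `|g|⁻¹` at every maximal ideal of `B` -/
theorem locder {B L : Type} [CommRing B] [IsDedekindDomain B] [Field L] [Algebra B L]
    [IsFractionRing B L] (δ : Derivation ℤ L L) (g : B) (hg : g ≠ 0)
    (h : ∀ z : B, ∃ w : B, algebraMap B L g * δ (algebraMap B L z) = algebraMap B L w) :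
    ∃ M : HeightOneSpectrum B → ℕ, {P | M P ≠ 0}.Finite ∧
      ∀ (P : HeightOneSpectrum B) (f : L), P.valuation L f ≤ 1 →
        P.valuation L (δ f) ≤ exp (M P : ℤ) := by
  have hgL : algebraMap B L g ≠ 0 := by
    rwa [Ne, IsFractionRing.to_map_eq_zero_iff]
  have hle : ∀ P : HeightOneSpectrum B, P.valuation L (algebraMap B L g) ≤ 1 :=
    fun P => P.valuation_le_one g
  have hne : ∀ P : HeightOneSpectrum B, P.valuation L (algebraMap B L g) ≠ 0 :=
    fun P => (map_ne_zero _).2 hgL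
  refine ⟨fun P => (-log (P.valuation L (algebraMap B L g))).toNat, ?_, ?_⟩
  · have h1 : {P : HeightOneSpectrum B | P.asIdeal ∣ Ideal.span {g}}.Finite :=
      Ideal.finite_factors (by simpa using hg)
    refine h1.subset fun P hP => ?_
    rw [Set.mem_ofPred_eq, ← P.valuation_lt_one_iff_dvd (K := L)]
    rcases (hle P).lt_or_eq with h2 | h2
    · exact h2
    · exfalso
      apply hP
      show (-log (P.valuation L (algebraMap B L g))).toNat = 0
      rw [h2, log_one]
      rfl
  · intro P f hf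
    have hlog : log (P.valuation L (algebraMap B L g)) ≤ 0 := by
      rw [← log_one]
      exact (log_le_log (hne P) one_ne_zero).2 (hle P)
    have hM : exp (((-log (P.valuation L (algebraMap B L g))).toNat : ℕ) : ℤ) =
        (P.valuation L (algebraMap B L g))⁻¹ := by
      rw [Int.toNat_of_nonneg (by omega), exp_neg, exp_log (hne P)]
    show P.valuation L (δ f) ≤ exp (((-log (P.valuation L (algebraMap B L g))).toNat : ℕ) : ℤ)
    rw [hM]
    have hb : ∀ z : B, P.valuation L (δ (algebraMap B L z)) ≤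
        (P.valuation L (algebraMap B L g))⁻¹ := by
      intro z
      obtain ⟨w, hw⟩ := h z
      have h3 : P.valuation L (algebraMap B L w) ≤ 1 := P.valuation_le_one w
      rw [← hw, map_mul] at h3
      calc P.valuation L (δ (algebraMap B L z))
          = (P.valuation L (algebraMap B L g))⁻¹ * (P.valuation L (algebraMap B L g) *
            P.valuation L (δ (algebraMap B L z))) := by
            rw [← mul_assoc, inv_mul_cancel₀ (hne P), one_mul]
        _ ≤ (P.valuation L (algebraMap B L g))⁻¹ * 1 := mul_le_mul' le_rfl h3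
        _ = _ := mul_one _
    obtain ⟨n, d, hnd⟩ := P.exists_primeCompl_mul_eq_of_integer f hf
    have hd : P.valuation L (algebraMap B L d) = 1 := by
      rw [P.valuation_of_algebraMap, P.intValuation_eq_one_iff_mem_primeCompl]
      exact d.2
    have h4 : δ f * algebraMap B L d = δ (algebraMap B L n) - f * δ (algebraMap B L d) := by
      rw [← hnd, Derivation.leibniz]
      simp only [smul_eq_mul]
      ring
    have h5 : P.valuation L (δ f) = P.valuation L (δ f * algebraMap B L d) := by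
      rw [map_mul, hd, mul_one]
    rw [h5, h4]
    refine (Valuation.map_sub _ _ _).trans (max_le (hb n) ?_)
    rw [map_mul]
    calc P.valuation L f * P.valuation L (δ (algebraMap B L d))
        ≤ 1 * (P.valuation L (algebraMap B L g))⁻¹ := mul_le_mul' hf (hb d)
      _ = _ := one_mul _

section
variable {κ L : Type} [Field κ] [Field L] [Algebra κ L] {τ : L}

theorem der_PA (δ : Derivation ℤ L L)
    (hκ : ∀ a : κ, ∃ b : κ, δ (algebraMap κ L a) = algebraMap κ L b)
    (hτ : δ τ ∈ PA κ τ) : ∀ a ∈ PA κ τ, δ a ∈ PA κ τ := by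
  intro a ha
  induction ha using Algebra.adjoin_induction with
  | mem x hx =>
    rw [Set.mem_singleton_iff] at hx
    rw [hx]
    exact hτ
  | algebraMap r =>
    obtain ⟨b, hb⟩ := hκ r
    rw [hb]
    exact (PA κ τ).algebraMap_mem b
  | add x y _ _ hx hy =>
    rw [map_add]
    exact add_mem hx hy
  | mul x y hx' hy' hx hy =>
    rw [Derivation.leibniz]
    exact add_mem (mul_mem hx' hy) (mul_mem hy' hx)

theorem exists_g (h : FF κ L τ) (δ : Derivation ℤ L L)
    (hκ : ∀ a : κ, ∃ b : κ, δ (algebraMap κ L a) = algebraMap κ L b)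
    (hτ : δ τ ∈ PA κ τ) :
    ∃ g : PB κ τ, g ≠ 0 ∧ ∀ z : PB κ τ, ∃ w : PB κ τ,
      algebraMap (PB κ τ) L g * δ (algebraMap (PB κ τ) L z) = algebraMap (PB κ τ) L w := by
  classical
  have hfr := h.frac
  have hfin := h.finB
  obtain ⟨s, hs⟩ := (Module.Finite.fg_top : (⊤ : Submodule (PA κ τ) (PB κ τ)).FG)
  obtain ⟨b, hb⟩ := IsLocalization.exist_integer_multiples_of_finset
    (nonZeroDivisors (PB κ τ)) (s.image fun z => δ (algebraMap (PB κ τ) L z))
  refine ⟨b, nonZeroDivisors.ne_zero b.2, fun z => ?_⟩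
  have hz : z ∈ Submodule.span (PA κ τ) (s : Set (PB κ τ)) := by
    rw [hs]; trivial
  induction hz using Submodule.span_induction with
  | mem x hx =>
    obtain ⟨w, hw⟩ := hb (δ (algebraMap (PB κ τ) L x)) (Finset.mem_image_of_mem _ hx)
    refine ⟨w, ?_⟩
    rw [hw]
    exact (Algebra.smul_def (b : PB κ τ) (δ (algebraMap (PB κ τ) L x))).symm
  | zero => exact ⟨0, by simp⟩
  | add x y _ _ hx hy =>
    obtain ⟨w1, h1⟩ := hx
    obtain ⟨w2, h2⟩ := hy
    exact ⟨w1 + w2, by rw [map_add, map_add, mul_add, h1, h2, map_add]⟩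
  | smul a x _ hx =>
    obtain ⟨w, hw⟩ := hx
    refine ⟨a • w + b * x * algebraMap (PA κ τ) (PB κ τ) ⟨δ a, der_PA δ hκ hτ a a.2⟩, ?_⟩
    have h1 : algebraMap (PB κ τ) L (a • x) = (a : L) * algebraMap (PB κ τ) L x := rfl
    have h2 : algebraMap (PB κ τ) L (a • w) = (a : L) * algebraMap (PB κ τ) L w := rfl
    have h3 : algebraMap (PB κ τ) L (algebraMap (PA κ τ) (PB κ τ) ⟨δ a, der_PA δ hκ hτ a a.2⟩) =
        δ (a : L) := rfl
    rw [h1, Derivation.leibniz, map_add, h2, ← hw, map_mul, map_mul, h3]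
    simp only [smul_eq_mul]
    ring

end

/-- DERB -/
theorem derb : DerbStatement := by
  intro κ L _ _ _ τ h δ hκ hτ
  have hτ1 : δ τ ∈ PA κ τ := by
    obtain ⟨b, hb⟩ := hτ
    rw [hb]
    exact (PA κ τ).algebraMap_mem b
  have hτ2 : δ τ⁻¹ ∈ PA κ τ⁻¹ := by
    obtain ⟨b, hb⟩ := hτ
    rw [Derivation.leibniz_inv, hb]
    have h1 : τ⁻¹ ∈ PA κ τ⁻¹ := Algebra.subset_adjoin rfl
    exact mul_mem (neg_mem (pow_mem h1 2)) ((PA κ τ⁻¹).algebraMap_mem b)
  obtain ⟨g1, hg1, h1⟩ := exists_g h δ hκ hτ1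
  obtain ⟨g2, hg2, h2⟩ := exists_g h.inv δ hκ hτ2
  have i1 := h.ddk
  have i2 := h.frac
  have i3 := h.inv.ddk
  have i4 := h.inv.frac
  obtain ⟨M1, hM1, hM1'⟩ := locder δ g1 hg1 h1
  obtain ⟨M2, hM2, hM2'⟩ := locder δ g2 hg2 h2
  refine ⟨Sum.elim M1 M2, ?_, ?_⟩
  · have h3 : {p : HeightOneSpectrum (PB κ τ) ⊕ HeightOneSpectrum (PB κ τ⁻¹) |
        Sum.elim M1 M2 p ≠ 0} = Sum.inl '' {P | M1 P ≠ 0} ∪ Sum.inr '' {P | M2 P ≠ 0} := by
      ext p
      rcases p with P | P <;> simp
    have h4 : {p : HeightOneSpectrum (PB κ τ) ⊕ HeightOneSpectrum (PB κ τ⁻¹) |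
        Sum.elim M1 M2 p ≠ 0}.Finite := by
      rw [h3]
      exact (hM1.image _).union (hM2.image _)
    exact h4
  · rintro (P | P) f hf
    · exact hM1' P f hf
    · exact hM2' P f hf

end Pool.Agent.Gen.H59
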