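import Pool.Agent.Lib.MP_c7af3c_ag.GEN.Schemes

/-!
# Module SFIB (helper59): finite morphisms have finite fibres on `k`-points
-/

set_option autoImplicit false

namespace Pool.Agent.Gen.H59

open AlgebraicGeometry CategoryTheory CategoryTheory.Limits

/-- sections of a finite scheme over a field -/
theorem finite_sections (k : Type) [Field k] (W : Scheme.{0}) (q : W ⟶ Spec (CommRingCat.of k))
    [IsFinite q] : {s : Spec (CommRingCat.of k) ⟶ W | s ≫ q = 𝟙 _}.Finite := by
  have hW : IsAffine W := isAffine_of_isAffineHom q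
  have hfin : q.appTop.hom.Finite := q.finite_appTop
  algebraize [q.appTop.hom, (Scheme.ΓSpecIso (CommRingCat.of k)).hom.hom]
  have hmf : Module.Finite Γ(Spec (CommRingCat.of k), ⊤) Γ(W, ⊤) := hfin
  have hf : Finite (Γ(W, ⊤) →ₐ[Γ(Spec (CommRingCat.of k), ⊤)] k) := inferInstance
  let Φ : {s : Spec (CommRingCat.of k) ⟶ W | s ≫ q = 𝟙 _} →
      (Γ(W, ⊤) →ₐ[Γ(Spec (CommRingCat.of k), ⊤)] k) := fun s =>
    { (s.1.appTop ≫ (Scheme.ΓSpecIso (CommRingCat.of k)).hom).hom with
      commutes' := by
        intro r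
        have h1 : q.appTop ≫ s.1.appTop = 𝟙 _ := by
          rw [← Scheme.Hom.comp_appTop, s.2, Scheme.Hom.id_appTop]
        have h2 : (q.appTop ≫ s.1.appTop).hom r = r := by rw [h1]; rfl
        show (Scheme.ΓSpecIso (CommRingCat.of k)).hom.hom ((q.appTop ≫ s.1.appTop).hom r) = _
        rw [h2]
        rfl }
  have hinj : Function.Injective Φ := by
    intro s t h
    apply Subtype.ext
    apply ext_of_isAffine
    have h3 : s.1.appTop ≫ (Scheme.ΓSpecIso (CommRingCat.of k)).hom =
        t.1.appTop ≫ (Scheme.ΓSpecIso (CommRingCat.of k)).hom := by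
      ext x
      exact DFunLike.congr_fun h x
    exact (cancel_mono _).1 h3
  exact Set.finite_coe_iff.1 (Finite.of_injective Φ hinj)

/-- SFIB -/
theorem sfib : SfibStatement := by
  intro k _ X Y i hi P
  have h1 := finite_sections k (pullback i P) (pullback.snd i P)
  refine (h1.image fun s => s ≫ pullback.fst i P).subset fun x hx => ?_
  have hx' : x ≫ i = P := hx
  refine ⟨pullback.lift x (𝟙 _) (by rw [hx', Category.id_comp]), ?_, ?_⟩
  · show pullback.lift x (𝟙 _) _ ≫ pullback.snd i P = 𝟙 _
    rw [pullback.lift_snd]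
  · show pullback.lift x (𝟙 _) _ ≫ pullback.fst i P = x
    rw [pullback.lift_fst]

end Pool.Agent.Gen.H59
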